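import Pool.Agent.Y440.A.Word

set_option autoImplicit false
set_option maxRecDepth 100000

namespace Pool.Agent.Y496.Q440

open Pool.Agent.Y440.A

lemma pk_nil (w : ℕ) : pk w [] = 0 := rfl

lemma pk_cons (w v : ℕ) (l : List ℕ) : pk w (v :: l) = v + 2 ^ w * pk w l := rfl

lemma pk_lt (w : ℕ) (l : List ℕ) (h : ∀ v ∈ l, v < 2 ^ w) : pk w l < 2 ^ (w * l.length) := by
  induction l with
  | nil => simp [pk_nil]
  | cons v l ih =>
    have h1 := ih fun u hu => h u (List.mem_cons_of_mem _ hu)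
    have h2 := h v List.mem_cons_self
    rw [pk_cons, List.length_cons, Nat.mul_add, Nat.mul_one, Nat.add_comm (w * l.length) w,
      Nat.pow_add]
    calc v + 2 ^ w * pk w l < 2 ^ w + 2 ^ w * pk w l := by omega
      _ = 2 ^ w * (pk w l + 1) := by ring
      _ ≤ 2 ^ w * 2 ^ (w * l.length) := Nat.mul_le_mul_left _ h1

lemma pk_get (w : ℕ) (l : List ℕ) (h : ∀ v ∈ l, v < 2 ^ w) (k : ℕ) :
    pk w l / 2 ^ (w * k) % 2 ^ w = l.getD k 0 := by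
  induction l generalizing k with
  | nil => simp [pk_nil]
  | cons v l ih =>
    have h2 := h v List.mem_cons_self
    rw [pk_cons]
    cases k with
    | zero =>
      simp only [Nat.mul_zero, Nat.pow_zero, Nat.div_one, List.getD_cons_zero]
      rw [Nat.add_mul_mod_self_left, Nat.mod_eq_of_lt h2]
    | succ k =>
      rw [Nat.mul_add, Nat.mul_one, Nat.add_comm (w * k) w, Nat.pow_add, ← Nat.div_div_eq_div_mul,
        Nat.add_mul_div_left _ _ (Nat.two_pow_pos w), Nat.div_eq_of_lt h2, Nat.zero_add,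
        ih (fun u hu => h u (List.mem_cons_of_mem _ hu)) k, List.getD_cons_succ]

section
variable {V : Type} {E : V → V → V → V → ℕ}

lemma le_one (hE : Odd4 E) (a b c d : V) : E a b c d ≤ 1 := by
  rcases hE.bt a b c d with h | h <;> omega

lemma b10_lt {b0 b1 b2 b3 b4 b5 b6 b7 b8 b9 : ℕ} (h0 : b0 ≤ 1) (h1 : b1 ≤ 1) (h2 : b2 ≤ 1)
    (h3 : b3 ≤ 1) (h4 : b4 ≤ 1) (h5 : b5 ≤ 1) (h6 : b6 ≤ 1) (h7 : b7 ≤ 1) (h8 : b8 ≤ 1)
    (h9 : b9 ≤ 1) : b10 b0 b1 b2 b3 b4 b5 b6 b7 b8 b9 < 1024 := by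
  unfold b10
  omega

lemma cd_lt (hE : Odd4 E) (a b c d e f : V) : cd E a b c d e f < 1024 :=
  b10_lt (le_one hE _ _ _ _) (le_one hE _ _ _ _) (le_one hE _ _ _ _) (le_one hE _ _ _ _)
    (le_one hE _ _ _ _) (le_one hE _ _ _ _) (le_one hE _ _ _ _) (le_one hE _ _ _ _)
    (le_one hE _ _ _ _) (le_one hE _ _ _ _)

lemma fl_lt (hE : Odd4 E) (a b c d e f u : V) : fl E a b c d e f u < 1024 :=
  b10_lt (le_one hE _ _ _ _) (le_one hE _ _ _ _) (le_one hE _ _ _ _) (le_one hE _ _ _ _)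
    (le_one hE _ _ _ _) (le_one hE _ _ _ _) (le_one hE _ _ _ _) (le_one hE _ _ _ _)
    (le_one hE _ _ _ _) (le_one hE _ _ _ _)

lemma fd_lt (hE : Odd4 E) (a b c d e f u v : V) : fd E a b c d e f u v < 2 ^ 30 := by
  have h1 := cd_lt hE a b c d e f
  have h2 := fl_lt hE a b c d e f u
  have h3 := fl_lt hE a b c d e f v
  unfold fd
  omega

lemma stp {a b n : ℕ} (h1 : a ≤ 1) (h2 : b ≤ n) : a + b ≤ n + 1 := by omega

lemma t7_le (hE : Odd4 E) (x0 x1 x2 x3 x4 x5 x6 : V) : t7 E x0 x1 x2 x3 x4 x5 x6 ≤ 35 := by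
  unfold t7
  iterate 34 refine stp (le_one hE _ _ _ _) ?_
  exact le_one hE _ _ _ _

lemma g7_le (hE : Odd4 E) (x0 x1 x2 x3 x4 x5 x6 x7 : V) : g7 E x0 x1 x2 x3 x4 x5 x6 x7 ≤ 35 := by
  unfold g7
  iterate 34 refine stp (le_one hE _ _ _ _) ?_
  exact le_one hE _ _ _ _

lemma D8_le (hE : Odd4 E) (x0 x1 x2 x3 x4 x5 x6 x7 : V) : D8 E x0 x1 x2 x3 x4 x5 x6 x7 ≤ 70 := by
  unfold D8
  have h1 := t7_le hE x0 x1 x2 x3 x4 x5 x6
  have h2 := g7_le hE x0 x1 x2 x3 x4 x5 x6 x7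
  omega

lemma t7_lt (hE : Odd4 E) (x0 x1 x2 x3 x4 x5 x6 : V) : t7 E x0 x1 x2 x3 x4 x5 x6 < 2 ^ 8 :=
  lt_of_le_of_lt (t7_le hE _ _ _ _ _ _ _) (by norm_num)

lemma D8_lt (hE : Odd4 E) (x0 x1 x2 x3 x4 x5 x6 x7 : V) : D8 E x0 x1 x2 x3 x4 x5 x6 x7 < 2 ^ 8 :=
  lt_of_le_of_lt (D8_le hE _ _ _ _ _ _ _ _) (by norm_num)

lemma lns_lt (hE : Odd4 E) (x0 x1 x2 x3 x4 x5 x6 x7 : V) :
    ∀ v ∈ lns E x0 x1 x2 x3 x4 x5 x6 x7, v < 2 ^ 8 :=
  List.forall_mem_cons.mpr ⟨D8_lt hE _ _ _ _ _ _ _ _,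
  List.forall_mem_cons.mpr ⟨t7_lt hE _ _ _ _ _ _ _,
  List.forall_mem_cons.mpr ⟨t7_lt hE _ _ _ _ _ _ _,
  List.forall_mem_cons.mpr ⟨t7_lt hE _ _ _ _ _ _ _,
  List.forall_mem_cons.mpr ⟨t7_lt hE _ _ _ _ _ _ _,
  List.forall_mem_cons.mpr ⟨t7_lt hE _ _ _ _ _ _ _,
  List.forall_mem_cons.mpr ⟨t7_lt hE _ _ _ _ _ _ _,
  List.forall_mem_cons.mpr ⟨t7_lt hE _ _ _ _ _ _ _,
  List.forall_mem_cons.mpr ⟨t7_lt hE _ _ _ _ _ _ _,
    List.forall_mem_nil _⟩⟩⟩⟩⟩⟩⟩⟩⟩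

lemma fds_lt (hE : Odd4 E) (x0 x1 x2 x3 x4 x5 x6 x7 : V) :
    ∀ v ∈ fds E x0 x1 x2 x3 x4 x5 x6 x7, v < 2 ^ 30 := by
  unfold fds
  iterate 28 refine List.forall_mem_cons.mpr ⟨fd_lt hE _ _ _ _ _ _ _ _, ?_⟩
  exact List.forall_mem_nil _

end

theorem t1 : S_fields := by
  intro V E hE x
  have hA := lns_lt hE (x 0) (x 1) (x 2) (x 3) (x 4) (x 5) (x 6) (x 7)
  have hB := fds_lt hE (x 0) (x 1) (x 2) (x 3) (x 4) (x 5) (x 6) (x 7)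
  have hA2 := pk_lt 8 _ hA
  have hl : (lns E (x 0) (x 1) (x 2) (x 3) (x 4) (x 5) (x 6) (x 7)).length = 9 := rfl
  rw [hl] at hA2
  unfold wd
  constructor
  · intro i hi
    have h1 := pk_get 8 _ hA i
    rw [← h1]
    have e : (2 : ℕ) ^ 72 = 2 ^ (8 * i) * (2 ^ 8 * 2 ^ (64 - 8 * i)) := by
      rw [← Nat.pow_add, ← Nat.pow_add]
      congr 1
      omega
    rw [e, Nat.mul_assoc, Nat.add_mul_div_left _ _ (Nat.two_pow_pos _), Nat.mul_assoc]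
    have : (256 : ℕ) = 2 ^ 8 := by norm_num
    rw [this, Nat.add_mul_mod_self_left]
  · intro p _
    have h1 := pk_get 30 _ hB p
    have e30 : (1073741824 : ℕ) = 2 ^ 30 := by norm_num
    rw [← h1, e30]
    rw [Nat.pow_add, ← Nat.div_div_eq_div_mul, Nat.add_mul_div_left _ _ (Nat.two_pow_pos _),
      Nat.div_eq_of_lt hA2, Nat.zero_add]

lemma land_split {a b c d : ℕ} (ha : a < 2 ^ 8) (hc : c < 2 ^ 8) :
    Nat.land (a + 2 ^ 8 * b) (c + 2 ^ 8 * d) = Nat.land a c + 2 ^ 8 * Nat.land b d := by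
  have hac : Nat.land a c < 2 ^ 8 := lt_of_le_of_lt Nat.and_le_left ha
  apply Nat.eq_of_testBit_eq
  intro i
  have h0 : ∀ u v : ℕ, Nat.land u v = u &&& v := fun _ _ => rfl
  rw [h0, Nat.testBit_and, Nat.add_comm a, Nat.add_comm c, Nat.add_comm (Nat.land a c),
    Nat.testBit_two_pow_mul_add _ ha, Nat.testBit_two_pow_mul_add _ hc,
    Nat.testBit_two_pow_mul_add _ hac]
  split_ifs
  · rw [h0, Nat.testBit_and]
  · rw [h0, Nat.testBit_and]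

lemma land_digit (d : ℕ) (h1 : 128 ≤ d) (h2 : d < 2 ^ 8) : Nat.land d 128 = 128 := by
  have h : ∀ d : Fin 256, 128 ≤ d.val → Nat.land d.val 128 = 128 := by decide +kernel
  exact h ⟨d, h2⟩ h1

lemma land_step {d b m : ℕ} (h1 : 128 ≤ d) (h2 : d < 2 ^ 8) (h : Nat.land b m = m) :
    Nat.land (d + 2 ^ 8 * b) (128 + 2 ^ 8 * m) = 128 + 2 ^ 8 * m := by
  rw [land_split h2 (by norm_num), land_digit d h1 h2, h]

lemma land_all {d0 d1 d2 d3 d4 d5 d6 d7 : ℕ} (a0 : 128 ≤ d0) (b0 : d0 < 2 ^ 8) (a1 : 128 ≤ d1)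
    (b1 : d1 < 2 ^ 8) (a2 : 128 ≤ d2) (b2 : d2 < 2 ^ 8) (a3 : 128 ≤ d3) (b3 : d3 < 2 ^ 8)
    (a4 : 128 ≤ d4) (b4 : d4 < 2 ^ 8) (a5 : 128 ≤ d5) (b5 : d5 < 2 ^ 8) (a6 : 128 ≤ d6)
    (b6 : d6 < 2 ^ 8) (a7 : 128 ≤ d7) (b7 : d7 < 2 ^ 8) :
    Nat.land (pk 8 [d0, d1, d2, d3, d4, d5, d6, d7]) 9259542123273814144 =
      9259542123273814144 := by
  have e : (9259542123273814144 : ℕ) = 128 + 2 ^ 8 * (128 + 2 ^ 8 * (128 + 2 ^ 8 * (128 + 2 ^ 8 *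
    (128 + 2 ^ 8 * (128 + 2 ^ 8 * (128 + 2 ^ 8 * (128 + 2 ^ 8 * 0))))))) := by norm_num
  rw [e]
  simp only [pk_cons, pk_nil]
  refine land_step a0 b0 (land_step a1 b1 (land_step a2 b2 (land_step a3 b3 (land_step a4 b4
    (land_step a5 b5 (land_step a6 b6 (land_step a7 b7 ?_)))))))
  exact Nat.and_zero 0

lemma mn_eq (X : ℕ) : mn X = Nat.beq (Nat.land
    ((X / 2 ^ 8 % 18446744073709551616 + 9259542123273814144) -
      (X / 2 ^ 8 % 18446744073709551616 / 72057594037927936 * 72340172838076673))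
        9259542123273814144) 9259542123273814144 := by
  unfold mn
  rw [st_eq]
  have h : Nat.mod (Nat.shiftRight X 8) 18446744073709551616 = X / 2 ^ 8 % 18446744073709551616 := by
    have : Nat.shiftRight X 8 = X / 2 ^ 8 := Nat.shiftRight_eq_div_pow X 8
    rw [this]
    rfl
  rw [h]
  rfl

lemma mn_true {D l0 l1 l2 l3 l4 l5 l6 l7 B : ℕ} (hD : D < 2 ^ 8) (b0 : l0 ≤ 35) (b1 : l1 ≤ 35)
    (b2 : l2 ≤ 35) (b3 : l3 ≤ 35) (b4 : l4 ≤ 35) (b5 : l5 ≤ 35) (b6 : l6 ≤ 35) (b7 : l7 ≤ 35)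
    (h0 : l7 ≤ l0) (h1 : l7 ≤ l1) (h2 : l7 ≤ l2) (h3 : l7 ≤ l3) (h4 : l7 ≤ l4) (h5 : l7 ≤ l5)
    (h6 : l7 ≤ l6) :
    mn (pk 8 [D, l0, l1, l2, l3, l4, l5, l6, l7] + 2 ^ 72 * B) = true := by
  rw [mn_eq]
  have e1 : (pk 8 [D, l0, l1, l2, l3, l4, l5, l6, l7] + 2 ^ 72 * B) / 2 ^ 8 =
      pk 8 [l0, l1, l2, l3, l4, l5, l6, l7] + 2 ^ 64 * B := by
    have : pk 8 [D, l0, l1, l2, l3, l4, l5, l6, l7] + 2 ^ 72 * B =
      D + 2 ^ 8 * (pk 8 [l0, l1, l2, l3, l4, l5, l6, l7] + 2 ^ 64 * B) := by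
      rw [pk_cons 8 D]
      ring
    rw [this, Nat.add_mul_div_left _ _ (Nat.two_pow_pos _), Nat.div_eq_of_lt hD, Nat.zero_add]
  have e2 : pk 8 [l0, l1, l2, l3, l4, l5, l6, l7] < 2 ^ 64 := by
    simp only [pk_cons, pk_nil]
    omega
  have e3 : (pk 8 [l0, l1, l2, l3, l4, l5, l6, l7] + 2 ^ 64 * B) % 18446744073709551616 =
      pk 8 [l0, l1, l2, l3, l4, l5, l6, l7] := by
    have : (18446744073709551616 : ℕ) = 2 ^ 64 := by norm_num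
    rw [this, Nat.add_mul_mod_self_left, Nat.mod_eq_of_lt e2]
  have e4 : pk 8 [l0, l1, l2, l3, l4, l5, l6, l7] / 72057594037927936 = l7 := by
    simp only [pk_cons, pk_nil]
    omega
  rw [e1, e3, e4]
  have e5 : pk 8 [l0, l1, l2, l3, l4, l5, l6, l7] + 9259542123273814144 - l7 * 72340172838076673 =
      pk 8 [l0 + 128 - l7, l1 + 128 - l7, l2 + 128 - l7, l3 + 128 - l7, l4 + 128 - l7,
        l5 + 128 - l7, l6 + 128 - l7, l7 + 128 - l7] := by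
    simp only [pk_cons, pk_nil]
    omega
  rw [e5, land_all (by omega) (by omega) (by omega) (by omega) (by omega) (by omega) (by omega)
    (by omega) (by omega) (by omega) (by omega) (by omega) (by omega) (by omega) (by omega)
    (by omega)]
  exact Nat.beq_refl _

theorem t2 : S_min := by
  intro V E hE x hx
  have h0 := hx 0
  have h1 := hx 1
  have h2 := hx 2
  have h3 := hx 3
  have h4 := hx 4
  have h5 := hx 5
  have h6 := hx 6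
  have e7 : t7f E (fun i : Fin 7 => x i.castSucc) =
    t7 E (x 0) (x 1) (x 2) (x 3) (x 4) (x 5) (x 6) := rfl
  have e0 : t7f E (fun i : Fin 7 => x ((0 : Fin 8).succAbove i)) =
    t7 E (x 1) (x 2) (x 3) (x 4) (x 5) (x 6) (x 7) := rfl
  have e1 : t7f E (fun i : Fin 7 => x ((1 : Fin 8).succAbove i)) =
    t7 E (x 0) (x 2) (x 3) (x 4) (x 5) (x 6) (x 7) := rfl
  have e2 : t7f E (fun i : Fin 7 => x ((2 : Fin 8).succAbove i)) =
    t7 E (x 0) (x 1) (x 3) (x 4) (x 5) (x 6) (x 7) := rfl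
  have e3 : t7f E (fun i : Fin 7 => x ((3 : Fin 8).succAbove i)) =
    t7 E (x 0) (x 1) (x 2) (x 4) (x 5) (x 6) (x 7) := rfl
  have e4 : t7f E (fun i : Fin 7 => x ((4 : Fin 8).succAbove i)) =
    t7 E (x 0) (x 1) (x 2) (x 3) (x 5) (x 6) (x 7) := rfl
  have e5 : t7f E (fun i : Fin 7 => x ((5 : Fin 8).succAbove i)) =
    t7 E (x 0) (x 1) (x 2) (x 3) (x 4) (x 6) (x 7) := rfl
  have e6 : t7f E (fun i : Fin 7 => x ((6 : Fin 8).succAbove i)) =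
    t7 E (x 0) (x 1) (x 2) (x 3) (x 4) (x 5) (x 7) := rfl
  rw [e7, e0] at h0
  rw [e7, e1] at h1
  rw [e7, e2] at h2
  rw [e7, e3] at h3
  rw [e7, e4] at h4
  rw [e7, e5] at h5
  rw [e7, e6] at h6
  exact mn_true (D8_lt hE _ _ _ _ _ _ _ _) (t7_le hE _ _ _ _ _ _ _) (t7_le hE _ _ _ _ _ _ _)
    (t7_le hE _ _ _ _ _ _ _) (t7_le hE _ _ _ _ _ _ _) (t7_le hE _ _ _ _ _ _ _)
    (t7_le hE _ _ _ _ _ _ _) (t7_le hE _ _ _ _ _ _ _) (t7_le hE _ _ _ _ _ _ _)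
    h0 h1 h2 h3 h4 h5 h6

end Pool.Agent.Y496.Q440
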